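import Mathlib
import Pool.Agent.Q200.Hull

/-!
# MP_668d6d_lc: ordered fields dense in their real closure with definable convex valuations

There is an ordered field which is dense in its real closure and admits a non-trivial convex
valuation definable in the language of ordered rings; there can even be arbitrarily many of them.
-/

namespace Pool.Agent.Results.MP_668d6d_lc.DenseWithDefinableConvex

open Q200 Q200.DOAG Q200.Hull Cardinal

universe u

/-- `R` with the given embedding is a real closure of the ordered field `K`: a real closed ordered
field, algebraic over `K`, whose order extends that of `K`. -/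
structure IsRealClosure (K R : Type u) [Field K] [LinearOrder K] [Field R] [LinearOrder R]
    [IsStrictOrderedRing R] [Algebra K R] : Prop where
  realClosed : IsRealClosed R
  algebraic : Algebra.IsAlgebraic K R
  mono : StrictMono (algebraMap K R)

/-- The ordered field `K` is dense in its real closure: every non-empty open interval of the real
closure contains an element of `K`. -/
def DenseInRealClosure (K : Type u) [Field K] [LinearOrder K] : Prop :=
  ∃ (R : Type u) (_ : Field R) (_ : LinearOrder R) (_ : IsStrictOrderedRing R) (_ : Algebra K R),
    IsRealClosure K R ∧ ∀ u v : R, u < v → ∃ x : K, u < algebraMap K R x ∧ algebraMap K R x < v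

/-- The non-trivial convex valuation rings of `K` which are definable (with parameters) in the
language of ordered rings. -/
def definableConvex (K : Type u) [Field K] [LinearOrder K] : Set (ValuationSubring K) :=
  {O | O ≠ ⊤ ∧ Set.OrdConnected (O : Set K) ∧ DefinableInField K (O : Set K)}

/-- **MP_668d6d_lc, Q1: yes**, in the following strong form: for every cardinal `κ` there is an
ordered field which is dense in its real closure and has more than `κ` non-trivial convex valuation
rings definable in the language of ordered rings. -/
theorem result (κ : Cardinal.{u}) : ∃ (K : Type u) (_ : Field K) (_ : LinearOrder K)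
    (_ : IsStrictOrderedRing K), DenseInRealClosure K ∧ κ < #(definableConvex K) := by
  obtain ⟨k, _, _, _, _, I, O, hI, hinj, hconv, hinf⟩ := ManyRings.exists_many κ
  obtain ⟨K, _, _, _, R, _, _, _, _, i, hR, halg, hmono, hi, hdense, hk, hcut⟩ :=
    CutField.main_construction k
  refine ⟨K, inferInstance, inferInstance, inferInstance,
    ⟨R, inferInstance, inferInstance, inferInstance, inferInstance, ⟨hR, halg, hmono⟩, hdense⟩, ?_⟩
  let V : I → ValuationSubring K := fun j => hull i hi (O j) (hconv j)
  have hb : ∀ j, ∃ b : K, ∀ y : k, i y < b ↔ ∃ x ∈ O j, y ≤ x := by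
    intro j
    obtain ⟨b, hb⟩ := hcut {y | ∃ x ∈ O j, y ≤ x} ⟨0, 0, (O j).zero_mem, le_rfl⟩
      (by rintro x ⟨w, hw, hxw⟩ y hyx; exact ⟨w, hw, hyx.trans hxw⟩)
      (by rintro x ⟨w, hw, hxw⟩
          exact ⟨w + 1, (O j).add_mem hw (O j).one_mem, by linarith⟩)
    exact ⟨b, hb⟩
  choose b hb using hb
  have hV : ∀ j, V j ∈ definableConvex K := by
    intro j
    refine ⟨?_, hull_convex i hi (O j) (hconv j),
      hull_definable i hi (O j) (hconv j) hk (b j) (hb j)⟩
    intro htop
    have : b j ∈ V j := by rw [htop]; trivial
    obtain ⟨y, hy, hby⟩ := this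
    have h1 : i (y + 1) < b j := (hb j (y + 1)).mpr ⟨y + 1, (O j).add_mem hy (O j).one_mem, le_rfl⟩
    have h2 : i y < i (y + 1) := hi (lt_add_one y)
    have h3 : b j ≤ |b j| := le_abs_self _
    exact absurd (h2.trans h1) (not_lt.mpr (h3.trans hby))
  have hVinj : Function.Injective V := by
    intro j l hjl
    apply hinj
    ext y
    rw [← map_mem_hull (i := i) (hi := hi) (hO := hconv j),
      ← map_mem_hull (i := i) (hi := hi) (hO := hconv l)]
    change i y ∈ V j ↔ i y ∈ V l
    rw [hjl]
  refine lt_of_lt_of_le hI ?_
  exact mk_le_of_injective (f := fun j => (⟨V j, hV j⟩ : definableConvex K))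
    (fun j l h => hVinj (congrArg Subtype.val h))

end Pool.Agent.Results.MP_668d6d_lc.DenseWithDefinableConvex
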